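import Pool.Agent.P.MP_993692_co.Prod

set_option autoImplicit false

namespace Pool.Agent.Results.MP_993692_co.StrongProducts

/-- Subgraphs of a strong product of `r` graphs of treewidth at most `k` and maximum degree at
most `ℓ` have distance number bounded in terms of `r`, `k`, `ℓ`. -/
theorem result :
    ∀ r k ℓ : ℕ, ∃ D : ℕ, ∀ (W : Fin r → Type) [∀ i, Fintype (W i)] (H : ∀ i, SimpleGraph (W i)),
      (∀ i, ∃ (ι : Type) (_ : Fintype ι) (T : SimpleGraph ι) (B : ι → Finset (W i)),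
        T.IsTree ∧ (∀ a, (B a).card ≤ k + 1) ∧ (∀ v, ∃ a, v ∈ B a) ∧
        (∀ u v, (H i).Adj u v → ∃ a, u ∈ B a ∧ v ∈ B a) ∧
        (∀ v a b, v ∈ B a → v ∈ B b → ∃ q : T.Walk a b, ∀ x ∈ q.support, v ∈ B x)) →
      (∀ i v, ((H i).neighborSet v).ncard ≤ ℓ) →
      ∀ (V : Type) [Fintype V] (G : SimpleGraph V) (f : V → ∀ i, W i), Function.Injective f →
        (∀ u v, G.Adj u v → ∀ i, f u i = f v i ∨ (H i).Adj (f u i) (f v i)) →
        ∃ p : V → EuclideanSpace ℝ (Fin 2), Function.Injective p ∧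
          (∀ u v w, G.Adj u v → w ≠ u → w ≠ v → p w ∉ segment ℝ (p u) (p v)) ∧
          {d : ℝ | ∃ u v, G.Adj u v ∧ dist (p u) (p v) = d}.ncard ≤ D :=
  Pool.Agent.P.MP_993692_co.prod_main

end Pool.Agent.Results.MP_993692_co.StrongProducts
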